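import Pool.Agent.MP_d8b1b3_co.H43.Macro

/-! The Paley blocks. -/

set_option autoImplicit false

namespace Pool.Agent.MP_d8b1b3_co.H43

open Matrix Kronecker

section
variable {F : Type} [Field F] [Fintype F] [DecidableEq F]

theorem core (hF : ringChar F ≠ 2) (x y : F) :
    ∑ z, quadraticChar F (x - z) * quadraticChar F (y - z) =
      (Fintype.card F : ℤ) * (if x = y then 1 else 0) - 1 := by
  set χ := quadraticChar F
  split_ifs with hxy
  · subst hxy
    have : ∀ z, χ (x - z) * χ (x - z) = 1 - if z = x then 1 else 0 := by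
      intro z
      split_ifs with hz
      · simp [hz, χ.map_zero]
      · rw [← sq, quadraticChar_sq_one (sub_ne_zero.2 (Ne.symm hz)), sub_zero]
    simp only [this, Finset.sum_sub_distrib, Finset.sum_const, Finset.card_univ,
      nsmul_eq_mul, mul_one, Finset.sum_ite_eq', Finset.mem_univ, if_true]
  · have hd : x - y ≠ 0 := sub_ne_zero.2 hxy
    have e1 : ∀ z, χ (x - z) * χ (y - z) =
        χ (1 + (x - y) * (y - z)⁻¹) - if z = y then 1 else 0 := by
      intro z
      split_ifs with hz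
      · simp [hz, χ.map_zero]
      · have h0 : y - z ≠ 0 := sub_ne_zero.2 (Ne.symm hz)
        have h1 : x - z = (1 + (x - y) * (y - z)⁻¹) * (y - z) := by field_simp; ring
        rw [sub_zero]
        conv_lhs => rw [h1, map_mul, mul_assoc, ← sq, quadraticChar_sq_one h0, mul_one]
    simp only [e1, Finset.sum_sub_distrib, Finset.sum_ite_eq', Finset.mem_univ, if_true, mul_zero]
    congr 1
    rw [← quadraticChar_sum_zero hF]
    exact Equiv.sum_comp ((Equiv.subLeft y).trans ((Equiv.inv F).trans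
      ((Equiv.mulLeft₀ (x - y) hd).trans (Equiv.addLeft 1)))) (fun a => χ a)

theorem chi_inv (a : F) : quadraticChar F a⁻¹ = quadraticChar F a := by
  by_cases h : a = 0
  · rw [h, _root_.inv_zero]
  · rw [show a⁻¹ = a * a⁻¹ ^ 2 by field_simp, map_mul, quadraticChar_sq_one' (inv_ne_zero h),
      mul_one]

/-- The non-zero squares. -/
abbrev Sq (F : Type) [Field F] [Fintype F] [DecidableEq F] := {x : F // quadraticChar F x = 1}

theorem Sq.ne (x : Sq F) : x.1 ≠ 0 := fun h => by simpa [h] using x.2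

/-- A sum over the field splits into zero, the squares and the non-squares `g / z`. -/
theorem split {g : F} (hg : quadraticChar F g = -1) (f : F → ℤ) :
    ∑ w, f w = f 0 + ∑ z : Sq F, f z + ∑ z : Sq F, f (g / z) := by
  have g0 : g ≠ 0 := fun h => by simp [h] at hg
  have h1 : ∀ f : F → ℤ, ∑ z : Sq F, f z = ∑ w, if quadraticChar F w = 1 then f w else 0 :=
    fun f => by
      rw [← Finset.sum_filter]
      exact (Finset.sum_subtype _ (by simp) f).symm
  rw [h1, h1 fun z => f (g / z), ← Equiv.sum_comp ((Equiv.inv F).trans (Equiv.mulLeft₀ g g0))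
    fun z => if quadraticChar F z = 1 then f (g / z) else 0,
    show f 0 = ∑ w, if w = 0 then f w else 0 by simp,
    ← Finset.sum_add_distrib, ← Finset.sum_add_distrib]
  refine Finset.sum_congr rfl fun w _ => ?_
  have e : quadraticChar F (g * w⁻¹) = -quadraticChar F w := by
    rw [map_mul, hg, chi_inv, neg_one_mul]
  simp only [Equiv.trans_apply, Equiv.inv_apply, Equiv.mulLeft₀_apply, e]
  by_cases h : w = 0
  · simp [h]
  · have : g / (g * w⁻¹) = w := by field_simp
    rcases quadraticChar_dichotomy h with h2 | h2 <;> simp [h, h2, this]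

theorem card_sq (hF : ringChar F ≠ 2) : Fintype.card F = 2 * Fintype.card (Sq F) + 1 := by
  obtain ⟨g, hg⟩ := quadraticChar_exists_neg_one hF
  have := split hg fun _ => 1
  simp only [Finset.sum_const, Finset.card_univ, nsmul_eq_mul, mul_one] at this
  omega

theorem blocks (h4 : Fintype.card F % 4 = 1) : ∃ A B : Matrix (Sq F) (Sq F) ℤ, Aᵀ = A ∧ Bᵀ = B ∧
    (∀ i, A i i = 0) ∧ (∀ i j, i ≠ j → A i j = 1 ∨ A i j = -1) ∧
    (∀ i j, B i j = 1 ∨ B i j = -1) ∧ B * A = A * B ∧
    (∀ i j, (B * B) i j =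
      (2 * Fintype.card (Sq F) + 1) * (1 : Matrix (Sq F) (Sq F) ℤ) i j - 2 - (A * A) i j) ∧
    (∀ i, ∑ j, A i j = -1) ∧ ∀ i, ∑ j, B i j = 0 := by
  have hF : ringChar F ≠ 2 := fun h => by
    have := FiniteField.even_card_iff_char_two.1 h
    omega
  obtain ⟨g, hg⟩ := quadraticChar_exists_neg_one hF
  set χ := quadraticChar F with hχ
  have hn : ∀ a, χ (-a) = χ a := fun a => by
    rw [neg_eq_neg_one_mul, map_mul, (quadraticChar_one_iff_isSquare (by simp)).2
      (FiniteField.isSquare_neg_one_iff.2 (by omega)), one_mul]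
  have hs : ∀ a b, χ (a - b) = χ (b - a) := fun a b => by rw [← hn, neg_sub]
  have hb : ∀ (x : F) (z : Sq F), χ (x * z - g) = χ (x - g / z) := fun x z => by
    rw [show x * z - g = (x - g / z) * z by have := z.ne; field_simp, map_mul, z.2, mul_one]
  have hq : ∀ z : Sq F, χ (g / z) = -1 := fun z => by
    rw [div_eq_mul_inv, map_mul, hg, chi_inv, z.2, mul_one]
  have hz : ∀ z : Sq F, χ z = 1 := fun z => z.2
  let A : Matrix (Sq F) (Sq F) ℤ := of fun x y => χ (x.1 - y.1)
  let B : Matrix (Sq F) (Sq F) ℤ := of fun x y => χ (x.1 * y.1 - g)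
  have sA : Aᵀ = A := by ext x y; exact hs _ _
  have sB : Bᵀ = B := by ext x y; exact congrArg (fun t => χ (t - g)) (mul_comm _ _)
  have rows : ∀ x : Sq F, ∑ z, A x z = -1 ∧ ∑ z, B x z = 0 := fun x => by
    have h1 := split hg fun w => χ (x - w)
    have h2 := split hg fun w => χ (x - w) * χ (0 - w)
    have h0 : ∑ w, χ (x.1 - w) = 0 :=
      (Equiv.sum_comp (Equiv.subLeft x.1) fun a => χ a).trans (quadraticChar_sum_zero hF)
    rw [h0] at h1
    rw [core hF, if_neg x.ne] at h2
    simp only [zero_sub, hn, hq, sub_zero, hz, χ.map_zero, mul_one,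
      mul_zero, mul_neg, Finset.sum_neg_distrib] at h1 h2
    simp only [A, B, of_apply, hb]
    omega
  refine ⟨A, B, sA, sB, fun i => by simp [A, χ.map_zero], fun i j h => quadraticChar_dichotomy
    (sub_ne_zero.2 fun e => h (Subtype.ext e)), fun i j => quadraticChar_dichotomy fun e => ?_,
    ?_, fun x y => ?_, fun i => (rows i).1, fun i => (rows i).2⟩
  · have := congrArg χ (sub_eq_zero.1 e)
    rw [map_mul, i.2, j.2, hg] at this
    omega
  · have key : ∀ x y : Sq F, (A * B) x y = ∑ t : Sq F, χ (1 - t) * χ (x.1 * y.1 * t - g) := by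
      intro x y
      have hm : ∀ t : F, χ t = 1 ↔ χ (x.1 * t) = 1 := fun t => by rw [map_mul, x.2, one_mul]
      rw [mul_apply, ← Equiv.sum_comp ((Equiv.mulLeft₀ x.1 x.ne).subtypeEquiv hm)]
      refine Finset.sum_congr rfl fun t _ => ?_
      show χ (x.1 - x.1 * t) * χ (x.1 * t * y.1 - g) = _
      rw [← mul_one_sub, map_mul, x.2, one_mul, mul_right_comm]
    rw [← sA, ← sB, ← transpose_mul, sA, sB]
    ext x y
    rw [transpose_apply, key, key, mul_comm x.1]
  · have h1 := split hg fun w => χ (x - w) * χ (y - w)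
    rw [core hF, card_sq hF] at h1
    simp only [sub_zero, hz, Subtype.coe_inj] at h1
    have e1 : (B * B) x y = ∑ z : Sq F, χ (x - g / z) * χ (y - g / z) :=
      Finset.sum_congr rfl fun z _ => by rw [← hb, ← hb, mul_comm y.1]; rfl
    have e2 : (A * A) x y = ∑ z : Sq F, χ (x.1 - z) * χ (y.1 - z) :=
      Finset.sum_congr rfl fun z _ => by rw [hs y.1]; rfl
    rw [e1, e2, one_apply]
    push_cast at h1
    linarith

theorem chi_neg (a : F) : quadraticChar F (-a) =
    (if Fintype.card F % 4 = 3 then -1 else 1) * quadraticChar F a := by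
  rw [neg_eq_neg_one_mul, map_mul]
  split_ifs with h
  · rw [quadraticChar_neg_one_iff_not_isSquare.2 (by
      rw [FiniteField.isSquare_neg_one_iff]; exact fun h' => h' h)]
  · rw [(quadraticChar_one_iff_isSquare (by simp)).2 (FiniteField.isSquare_neg_one_iff.2 h)]

theorem row (hF : ringChar F ≠ 2) (x : F) : ∑ z, quadraticChar F (x - z) = 0 :=
  (Equiv.sum_comp (Equiv.subLeft x) fun a => quadraticChar F a).trans (quadraticChar_sum_zero hF)

/-- The symmetric form of the first Paley matrix. -/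
theorem paley1 (hF : ringChar F ≠ 2) (h3 : Fintype.card F % 4 = 3) :
    ∃ K : Matrix (Option F) (Option F) ℤ, Had K ∧ Kᵀ = K := by
  refine ⟨of fun x y => x.elim 1 fun a => y.elim 1 fun b =>
    quadraticChar F (-a - b) - if b = -a then 1 else 0, ⟨?_, ?_⟩, ?_⟩
  · rintro (_ | x) (_ | y)
    iterate 3 simp
    by_cases h : y = -x
    · simp [h]
    · simpa [h] using quadraticChar_dichotomy (sub_ne_zero.2 (Ne.symm h))
  · have r := row hF
    ext (_ | x) (_ | y)
    · simp [mul_apply]
    · simpa [mul_apply, Fintype.sum_option] using r (-y)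
    · simpa [mul_apply, Fintype.sum_option] using r (-x)
    · have h1 := core hF (-x) (-y)
      have h2 := chi_neg (-x - -y)
      rw [neg_sub, if_pos h3] at h2
      simp only [mul_apply, Fintype.sum_option, transpose_apply, of_apply, Option.elim, sub_mul,
        mul_sub, Finset.sum_sub_distrib, mul_ite, ite_mul, mul_one, mul_zero, one_mul, zero_mul,
        Finset.sum_ite_eq', Finset.mem_univ, if_true, Matrix.smul_apply, one_apply,
        Option.some.injEq, smul_eq_mul, Fintype.card_option, neg_inj] at h1 ⊢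
      rw [h1, h2]
      by_cases h : x = y
      · simp [h, add_comm]
      · simp [h, Ne.symm h]
  · ext (_ | x) (_ | y)
    iterate 3 rfl
    show quadraticChar F (-y - x) - ite (x = -y) 1 0 = quadraticChar F (-x - y) - ite (y = -x) 1 0
    rw [show -y - x = -x - y by ring, if_congr (show x = -y ↔ y = -x from
      ⟨fun e => by simp [e], fun e => by simp [e]⟩) rfl rfl]

/-- The symmetric Paley conference matrix. -/
theorem conf (hF : ringChar F ≠ 2) (h3 : Fintype.card F % 4 ≠ 3) :
    ∃ C : Matrix (Option F) (Option F) ℤ, Cᵀ = C ∧ (∀ x, C x x = 0) ∧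
      (∀ x y, x ≠ y → C x y = 1 ∨ C x y = -1) ∧
      C * C = (Fintype.card F : ℤ) • (1 : Matrix (Option F) (Option F) ℤ) := by
  have hs : ∀ a b, quadraticChar F (a - b) = quadraticChar F (b - a) := fun a b => by
    rw [← neg_sub, chi_neg, if_neg h3, one_mul]
  refine ⟨of fun x y => x.elim (y.elim 0 fun _ => 1) fun a => y.elim 1 fun b => quadraticChar F (a - b),
    ?_, ?_, ?_, ?_⟩
  · ext (_ | x) (_ | y)
    iterate 3 rfl
    exact hs _ _
  · rintro (_ | x) <;> simp
  · rintro (_ | x) (_ | y) h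
    iterate 3 simp at h ⊢
    exact quadraticChar_dichotomy (sub_ne_zero.2 fun e => h (congrArg _ e))
  · ext (_ | x) (_ | y)
    · simp [mul_apply, Fintype.sum_option]
    · simpa [mul_apply, Fintype.sum_option] using
        (Finset.sum_congr rfl fun a _ => hs a y).trans (row hF y)
    · simpa [mul_apply, Fintype.sum_option] using row hF x
    · have h1 := core hF x y
      simp only [mul_apply, Fintype.sum_option, of_apply, Option.elim, hs _ y, Matrix.smul_apply,
        one_apply, Option.some.injEq, smul_eq_mul]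
      linarith

end

theorem field {q : ℕ} (hq : IsPrimePow q) (ho : Odd q) :
    ∃ (F : Type) (_ : Field F) (_ : Fintype F), Fintype.card F = q ∧ ringChar F ≠ 2 := by
  obtain ⟨p, k, hp, hk, rfl⟩ := (isPrimePow_nat_iff q).1 hq
  have : Fact p.Prime := ⟨hp⟩
  have := Fintype.ofFinite (GaloisField p k)
  have e : Fintype.card (GaloisField p k) = p ^ k := by
    rw [← Nat.card_eq_fintype_card, GaloisField.card p k hk.ne']
  refine ⟨GaloisField p k, inferInstance, this, e, fun h => ?_⟩
  have := FiniteField.even_card_iff_char_two.1 h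
  obtain ⟨t, ht⟩ := ho
  omega

/-- There is a symmetric Hadamard matrix of order `n`. -/
def SH (n : ℕ) : Prop := ∃ (ν : Type) (_ : Fintype ν) (_ : DecidableEq ν) (K : Matrix ν ν ℤ),
  Fintype.card ν = n ∧ Had K ∧ Kᵀ = K

/-- There are two anticommuting symmetric Hadamard matrices of order `n`. -/
def SP (n : ℕ) : Prop := ∃ (ν : Type) (_ : Fintype ν) (_ : DecidableEq ν) (K L : Matrix ν ν ℤ),
  Fintype.card ν = n ∧ Had K ∧ Kᵀ = K ∧ Had L ∧ Lᵀ = L ∧ L * K = -(K * L)

theorem SH.had {n : ℕ} (h : SH n) (hn : n % 2 = 0) (hq : IsPrimePow (2 * n + 1)) :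
    ∃ H : Matrix (Fin (16 * n + 12)) (Fin (16 * n + 12)) ℤ, Had H := by
  classical
  obtain ⟨F, _, _, hF, h2⟩ := field hq ⟨n, rfl⟩
  obtain ⟨ν, _, _, K, hν, hK, sK⟩ := h
  have hc : Fintype.card (Sq F) = n := by have := card_sq h2; omega
  obtain ⟨A, B, h1, h2, h3, h4, h5, h6, h7, h8, h9⟩ := blocks (F := F) (by omega)
  let e := Fintype.equivOfCardEq (hc.trans hν.symm)
  obtain ⟨H, hH⟩ := mac16.had (hK.reindex e) (by rw [transpose_submatrix, sK]) h1 h2 h3 h4 h5 h6 h7
    h8 h9
  exact ⟨_, hH.reindex (Fintype.equivOfCardEq (by simp [hc]; ring))⟩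

theorem Had.kron {ι κ : Type} [Fintype ι] [DecidableEq ι] [Fintype κ] [DecidableEq κ]
    {H : Matrix ι ι ℤ} {K : Matrix κ κ ℤ} (h : Had H) (k : Had K) : Had (H ⊗ₖ K) :=
  ⟨fun a b => by
    rcases h.1 a.1 b.1 with e | e <;> rcases k.1 a.2 b.2 with f | f <;>
      simp [kroneckerMap_apply, e, f], by
    rw [← kroneckerMap_transpose, ← mul_kronecker_mul, h.2, k.2, smul_kronecker, kronecker_smul,
      one_kronecker_one, smul_smul, Fintype.card_prod, Nat.cast_mul]⟩

theorem SH.mul {m n : ℕ} (h : SH m) (k : SH n) : SH (m * n) := by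
  obtain ⟨ι, _, _, H, rfl, h, s⟩ := h
  obtain ⟨κ, _, _, K, rfl, k, t⟩ := k
  exact ⟨ι × κ, _, _, H ⊗ₖ K, Fintype.card_prod _ _, h.kron k, by
    rw [← kroneckerMap_transpose, s, t]⟩

theorem SP.mul {m n : ℕ} (h : SH m) (k : SP n) : SP (m * n) := by
  obtain ⟨ι, _, _, H, rfl, h, s⟩ := h
  obtain ⟨κ, _, _, K, L, rfl, k, t, l, u, v⟩ := k
  refine ⟨ι × κ, _, _, H ⊗ₖ K, H ⊗ₖ L, Fintype.card_prod _ _, h.kron k, by
    rw [← kroneckerMap_transpose, s, t], h.kron l, by rw [← kroneckerMap_transpose, s, u], ?_⟩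
  rw [← mul_kronecker_mul, ← mul_kronecker_mul, v]
  ext a b
  simp [kroneckerMap_apply]

theorem SP.sh {n : ℕ} (h : SP n) : SH n := by
  obtain ⟨κ, _, _, K, L, e, k, t, -⟩ := h
  exact ⟨κ, _, _, K, e, k, t⟩

theorem sp_two : SP 2 := ⟨Fin 2, inferInstance, inferInstance, !![1, 1; 1, -1], !![-1, 1; 1, 1], rfl,
  ⟨by decide, by decide⟩, by decide, ⟨by decide, by decide⟩, by decide, by decide⟩

theorem sh_one : SH 1 := 
  ⟨Fin 1, inferInstance, inferInstance, 1, rfl, ⟨by decide, by decide⟩, by decide⟩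

theorem sh_paley {p : ℕ} (hp : IsPrimePow p) (h3 : p % 4 = 3) : SH (p + 1) := by
  classical
  obtain ⟨F, _, _, rfl, h2⟩ := field hp ⟨p / 2, by omega⟩
  obtain ⟨K, h⟩ := paley1 h2 h3
  exact ⟨_, _, _, K, Fintype.card_option, h⟩

theorem SP.paley {n p : ℕ} (h : SP n) (hp : IsPrimePow p) (ho : Odd p) : SP ((p + 1) * n) := by
  classical
  by_cases h3 : p % 4 = 3
  · exact h.mul (sh_paley hp h3)
  obtain ⟨F, _, _, rfl, h2⟩ := field hp ho
  obtain ⟨C, s, c0, c1, cc⟩ := conf h2 h3
  obtain ⟨κ, _, _, K, L, rfl, k, t, l, u, v⟩ := h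
  have key : ∀ K L : Matrix κ κ ℤ, Had K → Kᵀ = K → Had L → Lᵀ = L → L * K = -(K * L) →
      Had (C ⊗ₖ K + (1 : Matrix _ _ ℤ) ⊗ₖ L) ∧
        (C ⊗ₖ K + (1 : Matrix _ _ ℤ) ⊗ₖ L)ᵀ = C ⊗ₖ K + (1 : Matrix _ _ ℤ) ⊗ₖ L := by
    intro K L k t l u v
    have e : (C ⊗ₖ K + (1 : Matrix _ _ ℤ) ⊗ₖ L)ᵀ = C ⊗ₖ K + (1 : Matrix _ _ ℤ) ⊗ₖ L := by
      rw [transpose_add, ← kroneckerMap_transpose, ← kroneckerMap_transpose, s, t, u, transpose_one]
    refine ⟨⟨fun a b => ?_, ?_⟩, e⟩
    · by_cases h : a.1 = b.1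
      · simpa [kroneckerMap_apply, h, c0, one_apply] using l.1 a.2 b.2
      · rcases c1 _ _ h with e | e <;> rcases k.1 a.2 b.2 with f | f <;>
          simp [kroneckerMap_apply, e, f, h, one_apply]
    · have k2 := k.2
      have l2 := l.2
      rw [t] at k2
      rw [u] at l2
      simp only [e, Matrix.add_mul, Matrix.mul_add, ← mul_kronecker_mul, cc, k2, l2, v,
        Matrix.mul_one, Matrix.one_mul, ← one_kronecker_one (α := ℤ) (m := Option F) (n := κ)]
      ext a b
      simp only [Matrix.add_apply, kroneckerMap_apply, Matrix.smul_apply, Matrix.neg_apply,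
        smul_eq_mul, Fintype.card_prod, Fintype.card_option]
      push_cast
      ring
  have k' : Had (-K) := ⟨fun a b => by rcases k.1 a b with f | f <;> simp [f], by simpa using k.2⟩
  have a := key K L k t l u v
  have b := key L (-K) l u k' (by rw [transpose_neg, t]) (by simp [v])
  refine ⟨_, _, _, _, _, by simp, a.1, a.2, b.1, b.2, ?_⟩
  have k2 := k.2
  have l2 := l.2
  rw [t] at k2
  rw [u] at l2
  simp only [Matrix.add_mul, Matrix.mul_add, ← mul_kronecker_mul, cc, k2, l2, v, Matrix.neg_mul,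
    Matrix.mul_neg, Matrix.mul_one, Matrix.one_mul]
  ext a b
  simp only [Matrix.add_apply, kroneckerMap_apply, Matrix.smul_apply, Matrix.neg_apply,
    smul_eq_mul]
  ring

theorem sh_list (a : ℕ) (L : List ℕ) (hL : ∀ p ∈ L, IsPrimePow p ∧ Odd p)
    (ha : 1 ≤ a ∨ ∀ p ∈ L, p % 4 = 3) : SH (2 ^ a * (L.map (· + 1)).prod) := by
  have h2 : ∀ a, SH (2 ^ a) := fun a => by
    induction a with
    | zero => exact sh_one
    | succ a ih => exact ih.mul sp_two.sh
  rcases ha with ha | ha
  · apply SP.sh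
    induction L with
    | nil =>
      obtain ⟨a, rfl⟩ := Nat.exists_eq_add_of_le' ha
      simpa [pow_succ] using sp_two.mul (h2 a)
    | cons p L ih =>
      rw [List.map_cons, List.prod_cons, mul_left_comm]
      exact (ih fun q hq => hL q (.tail _ hq)).paley (hL p (.head _)).1 (hL p (.head _)).2
  · induction L with
    | nil => simpa using h2 a
    | cons p L ih =>
      rw [List.map_cons, List.prod_cons, mul_left_comm]
      exact (sh_paley (hL p (.head _)).1 (ha p (.head _))).mul
        (ih (fun q hq => hL q (.tail _ hq)) fun q hq => ha q (.tail _ hq))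

end Pool.Agent.MP_d8b1b3_co.H43
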