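import Mathlib

/-! Hadamard matrices from a Paley conference matrix, a symmetric Hadamard matrix and a border. -/

set_option autoImplicit false

namespace Pool.Agent.MP_d8b1b3_co.H43

open Matrix Kronecker

/-- A Hadamard matrix indexed by `ι`. -/
def Had {ι : Type} [Fintype ι] [DecidableEq ι] (H : Matrix ι ι ℤ) : Prop :=
  (∀ a b, H a b = 1 ∨ H a b = -1) ∧ H * Hᵀ = (Fintype.card ι : ℤ) • (1 : Matrix ι ι ℤ)

theorem Had.reindex {ι κ : Type} [Fintype ι] [DecidableEq ι] [Fintype κ] [DecidableEq κ]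
    {H : Matrix ι ι ℤ} (h : Had H) (e : κ ≃ ι) : Had (H.submatrix e e) :=
  ⟨fun _ _ => h.1 _ _, by
    rw [transpose_submatrix, submatrix_mul_equiv, h.2, Fintype.card_congr e, submatrix_smul,
      Pi.smul_apply, Pi.smul_apply, submatrix_one_equiv]⟩

/-- The outer data. -/
structure Mac {μ ρ : Type} [Fintype μ] [DecidableEq μ] [Fintype ρ] [DecidableEq ρ]
    (S T E P : Matrix μ μ ℤ) (b c : Matrix μ ρ ℤ) (C : Matrix ρ ρ ℤ) : Prop where
  cell : ∀ x y, (S x y = 1 ∨ S x y = -1) ∧ (E x y = 1 ∨ E x y = -1) ∧ T x y = 0 ∧ P x y = 0 ∨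
    (T x y = 1 ∨ T x y = -1) ∧ S x y = 0 ∧ E x y = 0 ∧ P x y = 0 ∨
    (P x y = 1 ∨ P x y = -1) ∧ S x y = 0 ∧ E x y = 0 ∧ T x y = 0
  sb : ∀ x k, b x k = 1 ∨ b x k = -1
  sc : ∀ x k, c x k = 1 ∨ c x k = -1
  sC : ∀ k l, C k l = 1 ∨ C k l = -1
  TS : T * Sᵀ = -(S * Tᵀ)
  ES : E * Sᵀ = -(S * Eᵀ)
  ET : E * Tᵀ = -(T * Eᵀ)
  PE : P * Eᵀ = -(E * Pᵀ)
  SP : S * Pᵀ = 0
  TP : T * Pᵀ = 0
  TT : T * Tᵀ = S * Sᵀ
  bb : b * bᵀ = S * Sᵀ + S * Sᵀ
  PP : P * Pᵀ = (Fintype.card μ : ℤ) • (1 : Matrix μ μ ℤ) - (S * Sᵀ + S * Sᵀ)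
  EE : E * Eᵀ = (Fintype.card ρ : ℤ) • (1 : Matrix μ μ ℤ) - S * Sᵀ
  CC : C * Cᵀ = (Fintype.card ρ : ℤ) • (1 : Matrix ρ ρ ℤ)
  cc : cᵀ * c = (Fintype.card μ : ℤ) • (1 : Matrix ρ ρ ℤ)
  bC : b * Cᵀ = S * c - E * c
  Pc : P * c = 0

theorem Mac.had {μ ρ ν : Type} [Fintype μ] [DecidableEq μ] [Fintype ρ] [DecidableEq ρ]
    [Fintype ν] [DecidableEq ν] {S T E P : Matrix μ μ ℤ} {b c : Matrix μ ρ ℤ} {C : Matrix ρ ρ ℤ}
    (m : Mac S T E P b c C) {A B K : Matrix ν ν ℤ} (hK : Had K) (sK : Kᵀ = K) (sA : Aᵀ = A)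
    (sB : Bᵀ = B) (A0 : ∀ i, A i i = 0) (A1 : ∀ i j, i ≠ j → A i j = 1 ∨ A i j = -1)
    (B1 : ∀ i j, B i j = 1 ∨ B i j = -1) (BA : B * A = A * B)
    (BB : ∀ i j, (B * B) i j =
      (2 * Fintype.card ν + 1) * (1 : Matrix ν ν ℤ) i j - 2 - (A * A) i j)
    (Ao : ∀ i, ∑ j, A i j = -1) (Bo : ∀ i, ∑ j, B i j = 0) :
    ∃ H : Matrix (ρ × Unit ⊕ μ × ν) (ρ × Unit ⊕ μ × ν) ℤ, Had H := by
  let o : Matrix ν Unit ℤ := of fun _ _ => 1
  have hA : A * o = -o := by ext i j; simp [o, mul_apply, Ao]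
  have hB : B * o = 0 := by ext i j; simp [o, mul_apply, Bo]
  have oo : ∀ i j, (o * oᵀ) i j = 1 := fun i j => by simp [o, mul_apply]
  have oo' : ∀ i j, (oᵀ * o) i j = Fintype.card ν := fun i j => by simp [o, mul_apply]
  have KK : K * K = (Fintype.card ν : ℤ) • (1 : Matrix ν ν ℤ) := by rw [← hK.2, sK]
  have PS : P * Sᵀ = 0 := by rw [← transpose_transpose P, ← transpose_mul, m.SP, transpose_zero]
  have PT : P * Tᵀ = 0 := by rw [← transpose_transpose P, ← transpose_mul, m.TP, transpose_zero]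
  let X := S ⊗ₖ A + T ⊗ₖ B + E ⊗ₖ (1 : Matrix ν ν ℤ) + P ⊗ₖ K
  have h21 : (b ⊗ₖ o) * (C ⊗ₖ (1 : Matrix Unit Unit ℤ))ᵀ + X * (cᵀ ⊗ₖ oᵀ)ᵀ = 0 := by
    simp only [X, ← kroneckerMap_transpose, transpose_transpose, transpose_one, Matrix.add_mul,
      ← mul_kronecker_mul, hA, hB, m.bC, m.Pc, Matrix.mul_one, Matrix.one_mul]
    ext ⟨x, i⟩ ⟨y, j⟩
    simp only [Matrix.add_apply, kroneckerMap_apply, Matrix.neg_apply, Matrix.sub_apply, Matrix.zero_apply]
    ring
  refine ⟨fromBlocks (C ⊗ₖ (1 : Matrix Unit Unit ℤ)) (cᵀ ⊗ₖ oᵀ) (b ⊗ₖ o) X, ?_, ?_⟩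
  · rintro (⟨k, _⟩ | ⟨x, i⟩) (⟨l, _⟩ | ⟨y, j⟩)
    · simpa using m.sC k l
    · simpa [o] using m.sc y k
    · simpa [o] using m.sb x l
    · simp only [X, fromBlocks_apply₂₂, Matrix.add_apply, kroneckerMap_apply]
      rcases m.cell x y with ⟨h1, h2, h3, h4⟩ | ⟨h1, h2, h3, h4⟩ | ⟨h1, h2, h3, h4⟩
      · by_cases h : i = j
        · subst h
          simpa [h3, h4, A0, one_apply] using h2
        · rcases h1 with h1 | h1 <;> rcases A1 i j h with h5 | h5 <;> simp [h1, h3, h4, h5, h, one_apply]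
      · rcases h1 with h1 | h1 <;> rcases B1 i j with h5 | h5 <;> simp [h1, h2, h3, h4, h5]
      · rcases h1 with h1 | h1 <;> rcases hK.1 i j with h5 | h5 <;> simp [h1, h2, h3, h4, h5]
  · rw [fromBlocks_transpose, fromBlocks_multiply, ← fromBlocks_one, fromBlocks_smul, h21,
      smul_zero, smul_zero]
    congr 1
    · simp only [← kroneckerMap_transpose, transpose_transpose, transpose_one,
        ← mul_kronecker_mul, m.CC, m.cc, ← one_kronecker_one (α := ℤ) (m := ρ) (n := Unit)]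
      ext ⟨x, i⟩ ⟨y, j⟩
      simp only [Matrix.add_apply, kroneckerMap_apply, Matrix.smul_apply, oo', smul_eq_mul, Matrix.mul_one,
        Fintype.card_sum, Fintype.card_prod, Fintype.card_unit, Subsingleton.elim i j,
        one_apply_eq]
      push_cast
      ring
    · have := congrArg transpose h21
      rwa [transpose_add, transpose_mul, transpose_mul, transpose_transpose, transpose_transpose,
        transpose_zero] at this
    · simp only [X, transpose_add, ← kroneckerMap_transpose, transpose_one, Matrix.add_mul,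
        Matrix.mul_add, ← mul_kronecker_mul, sA, sB, sK, m.TS, m.ES, m.ET, m.PE, m.SP, m.TP, m.TT,
        m.bb, m.PP, m.EE, PS, PT, BA, KK, Matrix.mul_one, Matrix.one_mul,
        ← one_kronecker_one (α := ℤ) (m := μ) (n := ν)]
      ext ⟨x, i⟩ ⟨y, j⟩
      simp only [Matrix.add_apply, kroneckerMap_apply, Matrix.smul_apply, Matrix.neg_apply, Matrix.sub_apply, Matrix.zero_apply, oo,
        BB, smul_eq_mul, Fintype.card_sum, Fintype.card_prod, Fintype.card_unit]
      push_cast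
      ring

/-- A matrix with entries `-1, 0, 1` read off the digits of `N` in base three. -/
def dec (m n N : ℕ) : Matrix (Fin m) (Fin n) ℤ :=
  of fun x y => ((N / 3 ^ (16 * x.1 + y.1) % 3 : ℕ) : ℤ) - 1

theorem mac16 : Mac
    (dec 16 16 69879399982035891839037002196328391646682300763879400817526332771268824204363539573316900283769287912184640958882491701760)
    (dec 16 16 69548712280879722453903850443812232245619544415942030461755266694283565053747804338608755439109745701382998166013033781760)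
    (dec 16 16 70259204549763227623311690668751102447984834714688060770978341298971358551536507472764053896903879797082903474274847605760)
    (dec 16 16 138150377105308576644559423311407936394805315182615561701061811354721192080969381071233018465199259851847558089136443267200)
    (dec 16 12 1191901798471740979886776052397159556886920285704305087228865138640818414708943680458761466505898082144458310551998949760)
    (dec 16 12 429050547314566858904756363207237275643868867906880117101633984273552031158008444555003799711789012898684652522170643840)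
    (dec 12 12 115791453725338846621876613816060860776081775615304681614874139380879744409521812482959384) := by
  constructor <;> decide +kernel

end Pool.Agent.MP_d8b1b3_co.H43
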